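import Pool.Agent.Results.MP_c1dca2_ag.FamiliesOverExtensions
import Pool.Agent.H107.EpsZero

/-!
# Sections of fundamental groups in all members of a family close to a point

`E : y² = x³ + a x + b` is an elliptic curve over a number field `K` whose Tate-Shafarevich group over `K` is killed by
some `M₀ ≥ 1`, and `X` is a closed subset of `E ^ r × ℙ ^ n` over `K`, a family of closed subsets `X_y ⊆ E ^ r` with
parameter space `ℙ ^ n`. A point `y` in `ℙ ^ n (K)` is good if for ALL extensions `F` of `K` of degree at most `M`, no
smooth curve `C` over `F` with a map to `X_y` has a section of the map from `π₁(C)` to the absolute Galois group of `F`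
which is given over `F_w` by a point (or a cusp) of `C` for all finite places `w` of `F`.

Suppose that for all `1 ≤ m ≤ M` and all complex points `S` of `E ^ r` there are at most `D` points `y` such that `S` is
a sum of `m` points of `X_y`. Let `φ` be any map from `ℙ ^ n (K)` to a metric space `X`, for example to the `n`-dimensional
space over any completion of `K`. There is a set of Hausdorff dimension zero such that for all points `z` outside of it and
all `w > 0` (arbitrarily small) ALL but finitely many of the points `y` in `ℙ ^ n (K)` at distance at most `H(y) ^ (-w)`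
from `z` are good.

The input is the bound `O(B ^ ε)` for the number of exceptional points of height at most `B` (starting result
`MP_c1dca2_ag.FamiliesOverExtensions`).
-/

set_option autoImplicit false

namespace Pool.Agent.Results.MP_c1dca2_ag.SectionsNearPoints

open MvPolynomial NumberField IsDedekindDomain Pool.Agent.TH954 Pool.Agent.W620.SC
open Pool.Agent.Results.MP_c1dca2_ag.FamiliesOverExtensions (curve coords MultiHomog IsSum MemberOver)

open scoped LinearAlgebra.Projectivization ENNReal

/-- Over all extensions `F` of `K` of degree at most `M`: no curve `C` over `F` (with function field `L`, closed points the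
valuation rings in `U`) with a map `P` to the member `X_y` has a section `s` which is given by points at all finite
places. The field `N` is any extension of `L` in the algebraic closure `Ω` of `L` which contains the maximal extension
unramified over the points of `C`. -/
def NoLocalSections {K : Type} [Field K] [NumberField K] (a b : 𝓞 K) {r n q : ℕ}
    (G : Fin q → MvPolynomial ((Fin r × Fin 3) ⊕ Fin (n + 1)) (𝓞 K)) (M : ℕ) (y : ℙ K (Fin (n + 1) → K)) : Prop :=
  ∀ (F : Type) [Field F] [NumberField F] [Algebra K F] (_ : Module.finrank K F ≤ M)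
    (L Ω N A : Type) [Field L] [Field Ω] [Field N] [Field A] [Algebra F L] [Algebra L Ω]
    [Algebra F Ω] [Algebra L N] [Algebra F N] [Algebra F A] [IsScalarTower F L Ω]
    [IsScalarTower F L N] [IsAlgClosure L Ω] [IsAlgClosure F A]
    (U : Set (ValuationSubring L)) (_ : ∀ O ∈ U, ∀ c : F, algebraMap F L c ∈ O)
    (e : N →ₐ[L] Ω) (_ : unramified L Ω U ≤ e.fieldRange)
    (P : Fin r → ((curve (algebraMap K F a) (algebraMap K F b)).baseChange L).toAffine.Point)
    (_ : OnX (MemberOver G F y) (fun i => crd (P i))) (s : GalSection F L N A),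
    ¬ ∀ w : HeightOneSpectrum (𝓞 F),
      ∃ p : Plc F N (AlgebraicClosure (w.adicCompletion F)), s.GivenBy (w.adicCompletion F) p

/-- **Theorem.** For every map `φ` from `ℙ ^ n (K)` to a metric space `X` there is a set `E` of Hausdorff dimension zero such
that for all `z` outside of `E` and all `w > 0` only finitely many points `y` with `dist (φ y, z) ≤ H(y) ^ (-w)` do not have
the property `NoLocalSections`. -/
theorem result (K : Type) [Field K] [NumberField K] (a b : 𝓞 K)
    (hE : 4 * a ^ 3 + 27 * b ^ 2 ≠ 0) (M₀ : ℕ) (hM1 : 1 ≤ M₀)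
    (hM : ShaKilledBy (curve (a : K) (b : K)) M₀) (r n q : ℕ)
    (G : Fin q → MvPolynomial ((Fin r × Fin 3) ⊕ Fin (n + 1)) (𝓞 K))
    (d : Fin q → Fin r → ℕ) (deg : Fin q → ℕ) (hG : ∀ e, MultiHomog (G e) (d e) (deg e))
    (σ : K →+* ℂ) (M D : ℕ) (hX : ∀ m, 1 ≤ m → m ≤ M → ∀ S : Fin r → (curve (σ a) (σ b)).toAffine.Point,
      {y : ℙ ℂ (Fin (n + 1) → ℂ) | IsSum σ a b G m S y.rep}.encard ≤ D)
    (X : Type) [MetricSpace X] (φ : ℙ K (Fin (n + 1) → K) → X) :
    ∃ E : Set X, dimH E = 0 ∧ ∀ z ∉ E, ∀ w : ℝ, 0 < w →
      {y : ℙ K (Fin (n + 1) → K) | ¬ NoLocalSections a b G M y ∧ dist (φ y) z ≤ y.mulHeight ^ (-w)}.Finite := by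
  refine Pool.Agent.H107.ME.eps_zero' φ (fun y => y.mulHeight) (fun y => y.one_le_mulHeight)
    {y | ¬ NoLocalSections a b G M y} fun ε hε => ?_
  obtain ⟨C, hC⟩ := Pool.Agent.Results.MP_c1dca2_ag.FamiliesOverExtensions.result K a b hE M₀ hM1 hM r n q G d deg hG
    σ M D hX ε hε
  refine ⟨C, fun B hB => ?_⟩
  obtain ⟨Z, h1, h2⟩ := hC B hB
  refine ⟨Z, h1, fun y hy hyB => ?_⟩
  by_contra hyZ
  exact hy (fun F _ _ _ hF L Ω N A _ _ _ _ _ _ _ _ _ _ _ _ _ _ U hU e he P hP s =>
    h2 y hyB hyZ F hF L Ω N A U hU e he P hP s)

end Pool.Agent.Results.MP_c1dca2_ag.SectionsNearPoints
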