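import Mathlib
import Pool.Agent.V1118.SpD
import Pool.Agent.Results.MP_c1dca2_ag.TwistsWithMixedFactors

/-!
# The section conjecture for the quadratic twists by `± ⌊α n ^ c⌋`, `c > 1`

Let `f k ∈ ℤ[x]` (finitely many) be irreducible over `ℚ`, pairwise non-associated, of even total degree,
at least four of them of odd degree, and none of degree 1.  There is `δ > 0`, which depends on the
`f k` only, such that for all real `c > 1` and all `α > 0` outside a set of Hausdorff dimension
smaller than one (which depends on `c` only, not on the polynomials) the following holds: at least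
`N / 5` of the `n ≤ N` are such that `⌊α n ^ c⌋` is squarefree, and for all but
`C N (log N) ^ (-δ)` of them no curve `d yᵐ = ∏ k, f k (x)`, `d = ± ⌊α n ^ c⌋`, `m ≥ 2` even, has a
rational point or a section of its fundamental group, also if any set of closed points of the curve
is removed.

The starting library has the theorem for the sequence of all squarefree `d`
(`TwistsWithMixedFactors`), which says nothing about sparse sequences of `d`, and the mean value law
for functions along the sequences `⌊α n ^ c⌋` (`Y854/GM`).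
-/

set_option autoImplicit false

open Polynomial
open Pool.Agent.V1118.SpD
open Pool.Agent.Results.MP_c1dca2_ag.TwistsWithMixedFactors (Factors Exceptional)

namespace Pool.Agent.Results.MP_c1dca2_ag.SparseTwists

universe v w

/-- The number `d` is squarefree, and for some even `n ≥ 2` the curve `d yⁿ = ∏ k, f k (x)` has a
rational point or a section (of the complete curve or of an open subcurve). -/
def Bad {r : ℕ} (f : Fin r → ℤ[X]) (d : ℤ) : Prop :=
  Squarefree d ∧ Exceptional.{v, w} (∏ k, (f k).map (Int.castRingHom ℚ)) d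

theorem result : ∃ δ : (r : ℕ) → (Fin r → ℤ[X]) → ℝ, (∀ r f, 0 < δ r f) ∧
    ∀ c : ℝ, 1 < c → ∃ E : Set ℝ, dimH E < 1 ∧ ∀ α : ℝ, 0 < α → α ∉ E →
      ManySquarefree α c ∧
      ∀ (r : ℕ) (f : Fin r → ℤ[X]), Factors f → (∀ k, (f k).natDegree ≠ 1) →
        FewAlong α c (δ r f) (Bad.{v, w} f) := by
  obtain ⟨δ, hδ, h⟩ := uniform (ι := Fams) (fun k => Factors k.2 ∧ ∀ i, (k.2 i).natDegree ≠ 1)
    (fun k => Bad.{v, w} k.2) (fun k hk =>
      Pool.Agent.Results.MP_c1dca2_ag.TwistsWithMixedFactors.result.{v, w}.1 (Fin k.1) k.2 hk.1 hk.2)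
  refine ⟨fun r f => δ ⟨r, f⟩, fun r f => hδ _, fun c hc => ?_⟩
  obtain ⟨E, hE, hlaw⟩ := h c hc
  exact ⟨E, hE, fun α hα hαE => ⟨(hlaw α hα hαE).1, fun r f h1 h2 =>
    (hlaw α hα hαE).2 ⟨r, f⟩ ⟨h1, h2⟩⟩⟩

end Pool.Agent.Results.MP_c1dca2_ag.SparseTwists
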