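import Pool.Agent.V11235.SK.Main

/-!
# The section conjecture for 100% of the twisted Fermat curves over all extensions of degree prime to `ℓ`

Let `k` be a number field, or any field finitely generated over `ℚ`: the fraction field of a domain `R` of
characteristic zero that is finitely generated as a ring.  Let `m ≥ 3`, and for `(a, b, c) ∈ R³` consider
the curves

  `C : a yⁿ = b x^M + c`,  `m ∣ M`,

for instance, if `m` divides `n`, the twisted Fermat curve `a yⁿ = b xⁿ + c zⁿ` of degree `n`.  We prove
that for 100% of the triples `(a, b, c)` we have for all prime numbers `ℓ` that divide `m`, for **all**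
finite extensions `k'` of `k` whose degree is not divisible by `ℓ`, for all `n ≥ 1` divisible by `ℓ` and
all `M` divisible by `m`: the curve `C` has no point over `k'`, and its fundamental group over `k'` has
no section, also when any set of closed points of the curve over `k'` is removed.  Moreover, already
the geometrically pro-`ℓ` fundamental group over `k'` of the curve `a y^ℓ = b x^m + c` has no section.
So 100% of these curves, and all smooth curves over `k'` that dominate one of them, satisfy the
section conjecture over all these `k'` at once.  For instance, for 100% of the triples the twisted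
Fermat curves `a yⁿ = b xⁿ + c zⁿ`, `4 ∣ n`, have neither points nor sections over all extensions of `k`
of odd degree; and for a prime number `ℓ ≥ 5` the geometrically pro-`ℓ` fundamental groups of 100% of
the curves `a y^ℓ = b x^ℓ + c z^ℓ` have no sections over all extensions of `k` of degree prime to `ℓ`.

The set of the exceptional triples has density zero in a strong sense: for every `ε > 0` there is an
ideal `I` of `R` of finite index such that the exceptional triples lie in at most `ε #(R/I)³` residue
classes modulo `I`.

The fundamental group is described through valuations.  Let `U` be a smooth geometrically connected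
curve over `k` with function field `F`, let `Ω` be an algebraic closure of `F`, and let `F_U` be the
maximal extension of `F` inside `Ω` which is unramified over the closed points of `U`, that is, over
their local rings, which are valuation rings of `F`.  Then `π₁(U) = Gal(F_U/F)`, and the map
`π₁(U) → G_k` is the restriction of automorphisms to the algebraic closure of `k` in `Ω`.

Proof.  One finds a number field `L` and a homomorphism `P : R → L` such that for almost all primes `v`
of `L` there is an embedding `ψ : k → L_v` with `ψ(r) ≡ P(r)` modulo `v²` for all `r ∈ R`; it induces a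
discrete valuation on `k` with finite residue field.  Let `v` be such a prime of prime norm `p`,
`p ≡ 1` modulo `m`.  The triples such that `P(a)` has valuation one, `P(b)` is a unit and `-P(c)/P(b)`
is not an `ℓ`-th power modulo `v` for all prime numbers `ℓ` dividing `m` have a proportion of at least
`(1/4m)(1/p - 1/p²)`; so 100% of the triples have this property for some `v`.  For such a triple, by
Kummer theory the degrees of all irreducible factors of `P(b) x^m + P(c)` modulo `v` are divisible by
`m`.  Let `k'` be a finite extension of `k` whose degree is not divisible by `ℓ`.  Some place `w` of `k'`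
over the discrete valuation of `k` given by `ψ` has a ramification index and a residue degree not
divisible by `ℓ`, because the sum of their products is `[k' : k]`.  So `w(a)` is not divisible by `ℓ`,
and `b x^m + c` has modulo `w` no root in the residue field of `w`, nor in its extensions of degree
prime to `ℓ`.  Now the local theorem for the geometrically pro-`ℓ` fundamental group (library
`Pool.Agent.Y141.PS`, `Pool.Agent.Y157.PS`) applies to the curve `a y^ℓ = b x^m + c`, which is dominated
by `C`.
-/

set_option autoImplicit false

open Polynomial NumberField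

namespace Pool.Agent.Results.MP_c1dca2_ag.TwistedFermatPrimeToEll

section definitions

variable (ℓ : ℕ) (k F Ω : Type) [Field k] [Field F] [Field Ω] [Algebra k F] [Algebra F Ω]
  [Algebra k Ω]

/-- The inertia group of the valuation ring `W` of `Ω`, as a subgroup of `Gal(Ω/F)`: the
automorphisms of `Ω` over `F` that map `W` onto itself and act as the identity on its residue
field. -/
noncomputable def inertia (W : ValuationSubring Ω) : Subgroup (Ω ≃ₐ[F] Ω) :=
  (W.inertiaSubgroup F).map (W.decompositionSubgroup F).subtype

/-- `F_U`, for a set `U` of valuation rings of `F`: the elements of `Ω` fixed by the inertia groups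
of all valuation rings `W` of `Ω` with `W ∩ F ∈ U`.  If `Ω` is an algebraic closure of a field `F`
of characteristic zero, this is the maximal extension of `F` in `Ω` unramified over `U`. -/
noncomputable def unramified (U : Set (ValuationSubring F)) : IntermediateField F Ω :=
  ⨅ W : {W : ValuationSubring Ω // W.comap (algebraMap F Ω) ∈ U},
    IntermediateField.fixedField (inertia F Ω W.1)

/-- `k̄ F`, the compositum of `F` and of the algebraic closure of `k` in `Ω`. -/
noncomputable def geomField : IntermediateField F Ω :=
  IntermediateField.adjoin F (algebraicClosure k Ω : Set Ω)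

/-- The algebraic extension `L` of `K` in `Ω` is unramified at all valuation rings of `Ω` that
contain `k`: every nonzero element of `L` has the same valuation as an element of `K`.  (If `K` is
a function field of one variable over the algebraic closure of `k` and `k` has characteristic zero,
then this says that `L/K` is unramified over all points of the smooth projective curve.) -/
def Unramified {k K Ω : Type} [Field k] [Field K] [Field Ω] [Algebra k Ω] [Algebra K Ω]
    (L : IntermediateField K Ω) : Prop :=
  ∀ W : ValuationSubring Ω, (∀ c : k, algebraMap k Ω c ∈ W) → ∀ z ∈ L, z ≠ 0 →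
    ∃ t : K, t ≠ 0 ∧ z / algebraMap K Ω t ∈ W ∧ (z / algebraMap K Ω t)⁻¹ ∈ W

/-- `L/K` is a finite Galois extension whose degree is a power of `ℓ`. -/
def FiniteProEll (ℓ : ℕ) {K Ω : Type} [Field K] [Field Ω] [Algebra K Ω]
    (L : IntermediateField K Ω) : Prop :=
  FiniteDimensional K L ∧ IsGalois K L ∧ ∃ m : ℕ, Module.finrank K L = ℓ ^ m

/-- The maximal unramified pro-`ℓ` extension of `K` in `Ω`: the compositum of the finite Galois
extensions of `K` whose degree is a power of `ℓ` and which are unramified. -/
noncomputable def maxProEll (ℓ : ℕ) (k K Ω : Type) [Field k] [Field K] [Field Ω] [Algebra k Ω]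
    [Algebra K Ω] : IntermediateField K Ω :=
  ⨆ L : {L : IntermediateField K Ω // FiniteProEll ℓ L ∧ Unramified (k := k) L}, L.1

/-- `M`, the maximal unramified pro-`ℓ` extension of `k̄ F` in `Ω`, as an extension of `F`. -/
noncomputable def proEllField : IntermediateField F Ω :=
  (maxProEll ℓ k (geomField k F Ω) Ω).restrictScalars F

/-- The map `τ : M → M` acts as `σ : K → K` on the elements that the fields `K` and `M` have in
common when they are regarded as subfields of `Ω` through `i` and `j`. -/
def ActsAs {K M Ω : Type} [Field K] [Field M] [Field Ω] (i : K →+* Ω) (j : M →+* Ω) (σ : K → K)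
    (τ : M → M) : Prop :=
  ∀ c z, j z = i c → j (τ z) = i (σ c)

/-- Let `k ⊆ K ⊆ Ω` and `F ⊆ N ⊆ Ω` be fields.  A splitting of `Gal(N/F) → Gal(K/k)`: a continuous
homomorphism `s` from `Gal(K/k)` to `Gal(N/F)` such that `s(σ)` acts as `σ` on the elements of
`K ∩ N`. -/
structure Splitting (K N : Type) [Field K] [Field N] [Algebra k K] [Algebra F N] [Algebra K Ω]
    [Algebra N Ω] where
  /-- the homomorphism `Gal(K/k) → Gal(N/F)` -/
  toHom : (K ≃ₐ[k] K) →* (N ≃ₐ[F] N)
  cont : Continuous toHom
  compat : ∀ σ : K ≃ₐ[k] K, ActsAs (algebraMap K Ω) (algebraMap N Ω) σ (toHom σ)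

/-- There are no sections of `Gal(N/F) → G_k`, where `G_k = Gal(k̄/k)` and `k̄` is the algebraic
closure of `k` in `Ω`.  For `N = F_U` these are the sections of `π₁(U) → G_k`. -/
def NoSplitting (N : IntermediateField F Ω) : Prop :=
  IsEmpty (Splitting k F Ω (algebraicClosure k Ω) N)

end definitions

/-- The smooth projective curve with the affine equation `a yⁿ = b x^M + c` has no point over `k`:
neither over the affine line, nor at infinity, where the points over `k` correspond to the solutions
of `a r^g = b` with `g = gcd(n, M)`. -/
def NoPoint {k : Type} [Field k] (n M : ℕ) (a b c : k) : Prop :=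
  (¬ ∃ x y : k, a * y ^ n = b * x ^ M + c) ∧ ¬ ∃ r : k, a * r ^ Nat.gcd n M = b

/-- Let `F` be any field over `k` that contains a point `(x, y)` of the curve `a yⁿ = b x^M + c`, for
instance the function field of the curve, and let `Ω` be an algebraic closure of `F`.  Then for
every set `U` of valuation rings of `F` over `k` there is no section of `π₁(U) → G_k`.  If `F` is the
function field of the curve, such `U` are given by the smooth projective curve and by all its open
subcurves. -/
def NoSection {k : Type} [Field k] (n M : ℕ) (a b c : k) : Prop :=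
  ∀ (F Ω : Type) [Field F] [Field Ω] [Algebra k F] [Algebra F Ω] [Algebra k Ω]
    [IsScalarTower k F Ω] [IsAlgClosure F Ω] (x y : F) (U : Set (ValuationSubring F)),
    algebraMap k F a * y ^ n = algebraMap k F b * x ^ M + algebraMap k F c →
      (∀ O ∈ U, ∀ c : k, algebraMap k F c ∈ O) → NoSplitting k F Ω (unramified F Ω U)

/-- Let `F = k(x, y)` be the function field of the curve `a y^ℓ = b x^m + c`, let `Ω` be an algebraic
closure of `F`, and let `M` be the maximal unramified pro-`ℓ` extension of `k̄ F`.  For all
extensions `N ⊇ M` of `F` in `Ω`, in particular for `N = M`, there is no section of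
`Gal(N/F) → G_k`. -/
def NoProEllSection {k : Type} [Field k] (ℓ m : ℕ) (a b c : k) : Prop :=
  ∀ (F Ω : Type) [Field F] [Field Ω] [Algebra k F] [Algebra F Ω] [Algebra k Ω]
    [IsScalarTower k F Ω] [IsAlgClosure F Ω] (x y : F), Transcendental k x →
    algebraMap k F a * y ^ ℓ = algebraMap k F b * x ^ m + algebraMap k F c →
    IntermediateField.adjoin k {x, y} = (⊤ : IntermediateField k F) →
    ∀ N : IntermediateField F Ω, proEllField ℓ k F Ω ≤ N → NoSplitting k F Ω N

/-- For all finite extensions `k'` of `k` whose degree is not divisible by `ℓ`: for all `n ≥ 1` divisible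
by `ℓ` and all `M` divisible by `m` the curve `a yⁿ = b x^M + c` over `k'` has neither points nor
sections, and the geometrically pro-`ℓ` fundamental group of the curve `a y^ℓ = b x^m + c` over `k'` has
no section. -/
def NothingOver {k : Type} [Field k] (ℓ m : ℕ) (a b c : k) : Prop :=
  ∀ (k' : Type) [Field k'] [Algebra k k'] [FiniteDimensional k k'], ¬ ℓ ∣ Module.finrank k k' →
    (∀ n M : ℕ, 0 < n → ℓ ∣ n → m ∣ M →
      NoPoint n M (algebraMap k k' a) (algebraMap k k' b) (algebraMap k k' c) ∧
      NoSection n M (algebraMap k k' a) (algebraMap k k' b) (algebraMap k k' c)) ∧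
    NoProEllSection ℓ m (algebraMap k k' a) (algebraMap k k' b) (algebraMap k k' c)

/-- The triples `t = (a, b, c)` of elements of `R` that do not have the following property: `a`, `b` and
`c` are not zero, and for all prime numbers `ℓ` dividing `m` and all finite extensions `k'` of `k` whose
degree is not divisible by `ℓ` there are no points and no sections, as in the definition
`NothingOver`. -/
def Exceptional (R : Type) [CommRing R] (k : Type) [Field k] [Algebra R k] (m : ℕ) :
    Set (Fin 3 → R) :=
  {t | ¬ (algebraMap R k (t 0) ≠ 0 ∧ algebraMap R k (t 1) ≠ 0 ∧ algebraMap R k (t 2) ≠ 0 ∧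
    ∀ ℓ : ℕ, ℓ.Prime → ℓ ∣ m →
      NothingOver ℓ m (algebraMap R k (t 0)) (algebraMap R k (t 1)) (algebraMap R k (t 2)))}

/-- Density zero: for every `ε > 0` there is an ideal `I` of `R` of finite index such that `E` lies
in at most `ε #(R/I)ᴺ` residue classes modulo `I`. -/
def DensityZero {R : Type} [CommRing R] {N : ℕ} (E : Set (Fin N → R)) : Prop :=
  ∀ ε : ℝ, 0 < ε → ∃ I : Ideal R, Finite (R ⧸ I) ∧
    (Set.ncard ((fun (t : Fin N → R) i => Ideal.Quotient.mk I (t i)) '' E) : ℝ) ≤
      ε * (Nat.card (R ⧸ I) : ℝ) ^ N

lemma iSup_congr_prop {α : Type} [CompleteLattice α] {P Q : α → Prop} (h : ∀ L, P L ↔ Q L) :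
    (⨆ L : {L // P L}, L.1) = ⨆ L : {L // Q L}, L.1 := by
  have h1 : P = Q := funext fun L => propext (h L)
  subst h1
  rfl

lemma proEll_eq (ℓ : ℕ) (k F Ω : Type) [Field k] [Field F] [Field Ω] [Algebra k F] [Algebra F Ω]
    [Algebra k Ω] : proEllField ℓ k F Ω = Pool.Agent.Y157.PS.geomPro ℓ k F Ω := by
  unfold proEllField Pool.Agent.Y157.PS.geomPro maxProEll Pool.Agent.Y157.PS.maxPro
  congr 1
  refine iSup_congr_prop fun L => ?_
  constructor
  · rintro ⟨⟨h1, h2, h3⟩, h4⟩
    refine ⟨⟨h1, h2, h3⟩, fun W hW z hz hz0 => ?_⟩
    obtain ⟨t, ht, h5, h6⟩ := h4 W hW z hz hz0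
    exact ⟨t, ht, div_ne_zero hz0 ((_root_.map_ne_zero _).2 ht), h5, h6⟩
  · rintro ⟨⟨h1, h2, h3⟩, h4⟩
    refine ⟨⟨h1, h2, h3⟩, fun W hW z hz hz0 => ?_⟩
    obtain ⟨t, ht, -, h5, h6⟩ := h4 W hW z hz hz0
    exact ⟨t, ht, h5, h6⟩

lemma of_fine {k : Type} [Field k] (ℓ m : ℕ) (hm0 : 0 < m) (hℓm : ℓ ∣ m) (a b c : k) (hb : b ≠ 0)
    (h : Pool.Agent.Y157.PS.FineP ℓ a (C b * X ^ m + C c : k[X])) :
    (∀ n M : ℕ, 0 < n → ℓ ∣ n → m ∣ M → NoPoint n M a b c ∧ NoSection n M a b c) ∧
      NoProEllSection ℓ m a b c := by
  have hlc : (C b * X ^ m + C c : k[X]).leadingCoeff = b :=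
    Pool.Agent.V11235.SK.binom_lc b c hb m hm0
  obtain ⟨h0, h1, h2, h3⟩ := h
  rw [hlc] at h3
  refine ⟨?_, ?_⟩
  · rintro n M - ⟨n', rfl⟩ ⟨M', rfl⟩
    refine ⟨⟨?_, ?_⟩, ?_⟩
    · rintro ⟨x, y, hxy⟩
      apply h2 (x ^ M') (y ^ n')
      rw [← pow_mul, mul_comm n' ℓ, hxy, eval_add, eval_mul, eval_pow, eval_X, eval_C, eval_C,
        ← pow_mul, mul_comm m M']
    · rintro ⟨r, hr⟩
      obtain ⟨e, he⟩ := Nat.dvd_gcd (Dvd.intro n' rfl : ℓ ∣ ℓ * n')
        (hℓm.trans (Dvd.intro M' rfl : m ∣ m * M'))
      apply h3 (r ^ e)
      rw [← pow_mul, mul_comm e ℓ, ← he]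
      exact hr
    · intro F Ω _ _ _ _ _ _ _ x y U hxy hU
      have hcl : IsAlgClosed Ω := IsAlgClosure.isAlgClosed F
      have halg : Algebra.IsAlgebraic F Ω := IsAlgClosure.isAlgebraic
      have h4 := h1 F Ω U hU (x ^ M') (y ^ n') (by
        rw [← pow_mul, mul_comm n' ℓ, hxy, map_add, map_mul, map_pow, aeval_X, aeval_C, aeval_C,
          ← pow_mul, mul_comm m M'])
      exact ⟨fun s => h4.false ⟨s.toHom, s.cont, s.compat⟩⟩
  · intro F Ω _ _ _ _ _ _ _ x y hx hxy hF N hN
    have hcl : IsAlgClosed Ω := IsAlgClosure.isAlgClosed F
    have halg : Algebra.IsAlgebraic F Ω := IsAlgClosure.isAlgebraic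
    rw [proEll_eq] at hN
    have hxy' : algebraMap k F a * y ^ ℓ = aeval x (C b * X ^ m + C c : k[X]) := by
      rw [hxy, map_add, map_mul, map_pow, aeval_X, aeval_C, aeval_C]
    exact ⟨fun s => h0 F Ω x y hx hxy' hF N hN s.toHom s.cont s.compat⟩

/-- Let `R` be a domain of characteristic zero that is finitely generated as a ring, with fraction
field `k`; so `k` is any field finitely generated over `ℚ`.  Let `m ≥ 3`.  For all triples `(a, b, c)` of
elements of `R` outside a set of density zero, `a`, `b`, `c` are not zero, and for all prime numbers `ℓ`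
dividing `m`, all finite extensions `k'` of `k` whose degree is not divisible by `ℓ`, all `n ≥ 1`
divisible by `ℓ` and all `M` divisible by `m`: the smooth projective curve over `k'` with the affine
equation `a yⁿ = b x^M + c` has no point over `k'`, and the fundamental groups of its open subcurves and
of all smooth curves over `k'` that dominate it have no sections; and the geometrically pro-`ℓ`
fundamental group of the curve `a y^ℓ = b x^m + c` over `k'` has no section. -/
theorem result (R : Type) [CommRing R] [IsDomain R] [CharZero R] [Algebra.FiniteType ℤ R]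
    (k : Type) [Field k] [Algebra R k] [IsFractionRing R k] (m : ℕ) (hm : 3 ≤ m) :
    DensityZero (Exceptional R k m) := by
  intro ε hε
  obtain ⟨I, hI, hle⟩ := Pool.Agent.V11235.SK.density_diag (R := R) (k := k) m hm ε hε
  refine ⟨I, hI, le_trans ?_ hle⟩
  have hsub : (Exceptional R k m : Set (Fin 3 → R)) ⊆
      {c : Fin 3 → R | ¬ Pool.Agent.V11235.SK.GoodB k m c} := by
    intro t ht hgood
    obtain ⟨h1, h2, h3, h4, -⟩ := hgood
    apply ht
    refine ⟨h1, h2, h3, fun ℓ hℓ hℓm K' _ _ _ hK' => ?_⟩
    have h5 := h4 ℓ hℓ hℓm K' hK'
    rw [Pool.Agent.V11235.SK.binom_map] at h5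
    exact of_fine ℓ m (by omega) hℓm _ _ _ ((_root_.map_ne_zero _).2 h2) h5
  exact_mod_cast Set.ncard_le_ncard (Set.image_mono hsub) (Set.toFinite _)

end Pool.Agent.Results.MP_c1dca2_ag.TwistedFermatPrimeToEll
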