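import Pool.Agent.Results.MP_c1dca2_ag.TwistsWithMixedFactors
import Pool.Agent.V11285.W8

/-!
# The section conjecture for ALL quadratic twists `d yⁿ = f(x)`, `d` in windows around `± α v_i`

For the polynomials `∏ f k` of `TwistsWithMixedFactors` there is `δ > 0` such that for all sequences `v_i → ∞` and
`L_i ≤ v_i` with `∑ L_i (log v_i) ^ (-δ) < ∞`, for example `v_i = 2 ^ (2 ^ i)` and `L_i = (log v_i) ^ κ`, `κ < δ`, and for
almost all `α > 0`: for all large `i` and ALL squarefree `d` with `| |d| - α v_i | ≤ L_i` the curves `d yⁿ = ∏ k, f k (x)`,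
`n` even, have no rational point and no section.
-/

set_option autoImplicit false

namespace Pool.Agent.Results.MP_c1dca2_ag.WindowsOfTwists

universe v w

open Finset Polynomial Filter Topology MeasureTheory
open Pool.Agent.Results.MP_c1dca2_ag.TwistsWithMixedFactors (Factors NoPoint NoSection Exceptional ex)

/-- For all sequences `v_n ≥ 1` with limit `∞` and all lengths `0 ≤ L_n ≤ v_n` with `∑ L_n (log v_n) ^ (-δ) < ∞`, for almost
all `α > 0` and all large `n` ALL squarefree integers `d` with `| |d| - α v_n | ≤ L_n` have the property `P`. -/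
def Windows (δ : ℝ) (P : ℤ → Prop) : Prop :=
  ∀ v L : ℕ → ℝ, (∀ n, 1 ≤ v n) → Tendsto v atTop atTop → (∀ n, 0 ≤ L n) → (∀ᶠ n in atTop, L n ≤ v n) →
    Summable (fun n => L n * Real.log (v n) ^ (-δ)) →
    ∀ᵐ α : ℝ, 0 < α → ∃ n₀ : ℕ, ∀ n : ℕ, n₀ ≤ n → ∀ d : ℤ, Squarefree d → |(|(d : ℝ)|) - α * v n| ≤ L n → P d

/-- **All twists in windows.** For all factors `f k` as in `Factors`, none of degree `1`, there is `δ > 0` such that for all
squarefree `d` in the windows and all even `n ≥ 2` the curve `d yⁿ = ∏ k, f k (x)` has no rational point and no section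
(`NoPoint`, `NoSection`). There are such factors for which the curves have points everywhere locally; and examples of
sequences. -/
theorem result :
    (∀ (K : Type) [Fintype K] [DecidableEq K] (f : K → ℤ[X]), Factors f → (∀ k, (f k).natDegree ≠ 1) →
      ∃ δ : ℝ, 0 < δ ∧ Windows δ fun d => ∀ n : ℕ, 0 < n → Even n →
        NoPoint n (d : ℚ) (∏ k, (f k).map (Int.castRingHom ℚ)) ∧
        NoSection.{0, v, w} n (d : ℚ) (∏ k, (f k).map (Int.castRingHom ℚ))) ∧
    (Factors ex ∧ (∀ k, (ex k).natDegree ≠ 1) ∧ (∃ x : ℝ, ∏ k, aeval x (ex k) = 0) ∧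
      ∀ (p : ℕ) [Fact p.Prime], ∃ x : ℚ_[p], ∏ k, aeval x (ex k) = 0) ∧
    (∀ δ κ : ℝ, κ < δ → Summable fun n : ℕ =>
      Real.log ((2 : ℝ) ^ (2 ^ n)) ^ κ * Real.log ((2 : ℝ) ^ (2 ^ n)) ^ (-δ)) := by
  obtain ⟨h1, h2⟩ := TwistsWithMixedFactors.result.{v, w}
  refine ⟨fun K _ _ f hF hl => ?_, h2, fun δ κ h => Pool.Agent.V11285.W8.summable_example h⟩
  obtain ⟨δ, hδ, C, hC⟩ := h1 K f hF hl
  refine ⟨δ, hδ, fun v L hv hvt hL0 hLv hsum => ?_⟩
  filter_upwards [Pool.Agent.V11285.W8.ae_thinZ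
    (fun d => Squarefree d ∧ Exceptional.{v, w} (∏ k, (f k).map (Int.castRingHom ℚ)) d) (C := C) hδ hC hv hvt hL0 hLv
      hsum] with α hα hα0
  obtain ⟨n₀, hn₀⟩ := hα hα0
  refine ⟨n₀, fun n hn d hd hw m hm0 hm => ?_⟩
  by_contra hP
  exact hn₀ n hn d hd.ne_zero hw ⟨hd, m, hm0, hm, hP⟩

end Pool.Agent.Results.MP_c1dca2_ag.WindowsOfTwists
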